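import Pool.Agent.H14.FRU.Stmts

/-!
# Module NM2 of project FRU: every subset of `w` in the second extension is coded by a member of `L`
-/

set_option linter.unusedVariables false
set_option synthInstance.maxSize 100000

namespace SW.FU

section
variable {M : Type} [SetStr M] [ZF M]

theorem nm2_cb {a : M} (h : Cb a) : Img om a := by
  obtain ⟨f, h1, h2⟩ := h
  refine ⟨sep (prod om a) (fun z => ∃ n y, z = opair n y ∧ E (opair y n) f), fun y hy => ?_⟩
  obtain ⟨n, hn, hf⟩ := h1 y hy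
  refine ⟨n, hn, ?_⟩
  unfold app
  symm
  apply the_eq
  · rw [mem_sep' inferInstance]
    exact ⟨mem_prod.2 ⟨hn, hy⟩, n, y, rfl, hf⟩
  · intro z hz
    rw [mem_sep' inferInstance] at hz
    obtain ⟨h3, n', y', h4, h5⟩ := hz
    rw [mem_prod] at h3
    rw [opair_inj] at h4
    obtain ⟨rfl, rfl⟩ := h4
    exact h2 _ _ _ h3.2 hy hn h5 hf

/-- subsets of a set are images of the set -/
theorem nm2_sub {z a : M} (h : Sub a z) : Img z a := by
  have hf : Fn1 (fun x : M => x) := inferInstance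
  exact ⟨gr a (fun x : M => x), fun y hy => ⟨y, h y hy, by rw [app_gr hf hy]⟩⟩

/-- singletons are images of nonempty sets -/
theorem nm2_sing {z c x : M} (h : E x z) : Img z (sing c) := by
  have hf : Fn1 (fun x : M => c) := inferInstance
  refine ⟨gr z (fun x : M => c), fun y hy => ⟨x, h, ?_⟩⟩
  rw [app_gr hf h]
  exact mem_sing.1 hy

theorem nm2_XX {w g R S b : M} : E b (XX w g R S) ↔
    E b w ∧ ∃ q, E q g ∧ E (opair S (opair b q)) R := by
  unfold XX
  rw [mem_sep' inferInstance]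

theorem nm2_ne {w : M} (h : IsW w) : ∃ x, E x w := by
  by_contra hn
  exact h.2.1 ⟨emp, fun y hy => absurd ⟨y, hy⟩ hn, fun y _ _ hy => absurd ⟨y, hy⟩ hn⟩

end

/-- NM2 -/
theorem fru_nm2 (hnn : NNGStmt) (hcc : CC2Stmt) (huf : UF2Stmt) : NM2Stmt := by
  intro M _ _ _ w L U A R G hK hG _ X hX
  have he := embF hG
  have ht := traF hG
  obtain ⟨u1, u2, u3, u4⟩ := huf M w L U A R hK
  have key : ∃ e : M, Sub e U ∧ Img (prod w om) e ∧ (∃ x, E x e) ∧
      ∀ b, E b w → (E (emb (PG2 w L U A) G b) X ↔ ∃ q, G q ∧ E (opair b q) e) := by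
    by_cases h : ∃ x, E x X
    · obtain ⟨e, h1, h2, h3⟩ := hnn M (PG2 w L U A) G w om w hG
        (fun a ha => nm2_cb (hcc M w L U A R a hK ha)) X hX (nm2_sub hX) h
      refine ⟨e, ?_, h2, ?_, h3⟩
      · intro z hz
        obtain ⟨x, q, hx, hq, rfl⟩ := h1 z hz
        exact u1 x q (hK.sw x hx) (u4 q hq)
      · obtain ⟨x, hx⟩ := h
        obtain ⟨b, hb, rfl⟩ := he.trans x w (hX x hx)
        obtain ⟨q, _, hq⟩ := (h3 b hb).1 hx
        exact ⟨_, hq⟩
    · refine ⟨sing (opair w one2), ?_, ?_, ⟨_, mem_sing.2 rfl⟩, fun b hb => ?_⟩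
      · intro z hz
        rw [mem_sing] at hz
        rw [hz]
        exact u1 _ _ hK.wU (u3 _ (one2_Cn2 w L A))
      · obtain ⟨x, hx⟩ := nm2_ne hK.w1
        exact nm2_sing (x := opair x emp) (mem_prod.2 ⟨hx, emp_mem_om⟩)
      · constructor
        · intro h'
          exact absurd ⟨_, h'⟩ h
        · rintro ⟨q, _, hq⟩
          rw [mem_sing, opair_inj] at hq
          rw [hq.1] at hb
          exact absurd hb (not_mem_self w)
  obtain ⟨e, k1, k2, k3, k4⟩ := key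
  obtain ⟨S, hS, hSe⟩ := hK.nm e k1 k2 k3
  refine ⟨emb (PG2 w L U A) G S, (he.mem _ _).2 hS, ext fun x => ?_⟩
  rw [nm2_XX]
  constructor
  · intro hx
    refine ⟨hX x hx, ?_⟩
    obtain ⟨b, hb, rfl⟩ := he.trans x w (hX x hx)
    obtain ⟨q, hq, hq'⟩ := (k4 b hb).1 hx
    refine ⟨emb (PG2 w L U A) G q, (he.G_mem _).2 ⟨q, hq, rfl⟩, ?_⟩
    rw [← ht.opair, ← ht.opair, he.mem]
    exact (hSe _).1 hq'
  · rintro ⟨hx, q', hq', h⟩
    obtain ⟨b, hb, rfl⟩ := he.trans x w hx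
    obtain ⟨q, hq, rfl⟩ := (he.G_mem _).1 hq'
    rw [← ht.opair, ← ht.opair, he.mem] at h
    exact (k4 b hb).2 ⟨q, hq, (hSe _).2 h⟩

end SW.FU
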